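import Mathlib

/-!
# A polynomial with logarithmic derivative analytic in a disc has no zero there
-/

set_option autoImplicit false

open Polynomial Finset Filter Topology

namespace Pool.Agent.H60.RH

/-- The polynomial with coefficients `c`. -/
noncomputable def pol (c : ℕ → ℂ) (N : ℕ) : ℂ[X] := ∑ n ∈ range N, C (c n) * X ^ n

lemma eval_pol (c : ℕ → ℂ) (N : ℕ) (u : ℂ) : (pol c N).eval u = ∑ n ∈ range N, c n * u ^ n := by
  simp [pol, eval_finsetSum]

lemma eval_derivative_pol (c : ℕ → ℂ) (N : ℕ) (u : ℂ) :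
    u * (derivative (pol c N)).eval u = ∑ n ∈ range N, (n : ℂ) * c n * u ^ n := by
  simp only [pol, derivative_sum, eval_finsetSum, mul_sum]
  refine sum_congr rfl fun n _ => ?_
  rcases n with _ | n
  · simp
  · rw [derivative_C_mul_X_pow]
    simp only [eval_mul, eval_C, eval_pow, eval_X, Nat.add_sub_cancel, pow_succ, Nat.cast_add,
      Nat.cast_one]
    ring

theorem no_zero (c S : ℕ → ℂ) (N : ℕ) (hc : ∀ n, N ≤ n → c n = 0) (hc0 : c 0 = 1)
    (hrec : ∀ n : ℕ, (n : ℂ) * c n = ∑ m ∈ Icc 1 n, S m * c (n - m)) (ρ : ℝ)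
    (hS : ∀ r : ℝ, 0 ≤ r → r < ρ → Summable (fun m => ‖S m‖ * r ^ m)) (u : ℂ) (hu : ‖u‖ < ρ) :
    ∑ n ∈ range N, c n * u ^ n ≠ 0 := by
  -- the identity
  set S' : ℕ → ℂ := fun m => if m = 0 then 0 else S m with hS'
  have hS'n : ∀ m, ‖S' m‖ ≤ ‖S m‖ := by
    intro m
    simp only [hS']
    split_ifs
    · simp
    · exact le_rfl
  have hsum : ∀ z : ℂ, ‖z‖ < ρ → Summable (fun m => ‖S' m * z ^ m‖) := by
    intro z hz
    refine Summable.of_nonneg_of_le (fun m => norm_nonneg _) (fun m => ?_)
      (hS ‖z‖ (norm_nonneg _) hz)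
    rw [norm_mul, norm_pow]
    exact mul_le_mul_of_nonneg_right (hS'n m) (by positivity)
  have hid : ∀ z : ℂ, ‖z‖ < ρ → z * (derivative (pol c N)).eval z =
      (pol c N).eval z * ∑' m, S' m * z ^ m := by
    intro z hz
    have h1 : ∀ f : ℕ → ℂ, (∀ n, N ≤ n → f n = 0) → ∑ n ∈ range N, f n = ∑' n, f n := by
      intro f hf
      exact (tsum_eq_sum fun n hn => hf n (by simpa using hn)).symm
    have h2 : Summable (fun n => ‖c n * z ^ n‖) := by
      refine summable_of_ne_finset_zero (s := range N) fun n hn => ?_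
      rw [hc n (by simpa using hn)]; simp
    rw [eval_derivative_pol, eval_pol, h1 _ (fun n hn => by rw [hc n hn]; simp),
      h1 _ (fun n hn => by rw [hc n hn]; simp),
      tsum_mul_tsum_eq_tsum_sum_antidiagonal_of_summable_norm h2 (hsum z hz)]
    congr 1
    ext n
    rw [hrec n, sum_mul]
    have h3 : ∑ p ∈ antidiagonal n, c p.1 * z ^ p.1 * (S' p.2 * z ^ p.2) =
        ∑ m ∈ range (n + 1), c (n - m) * z ^ (n - m) * (S' m * z ^ m) := by
      rw [Finset.Nat.sum_antidiagonal_eq_sum_range_succ_mk, ← Finset.sum_range_reflect]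
      refine sum_congr rfl fun m hm => ?_
      have hm' : m ≤ n := by have := mem_range.1 hm; omega
      simp only [Nat.succ_sub_one]
      rw [Nat.sub_sub_self hm']
    rw [h3, Finset.sum_range_succ', Nat.sub_zero]
    simp only [hS', if_true, zero_mul, mul_zero, add_zero]
    rw [Finset.range_eq_Ico, Finset.sum_Ico_add' (fun m => c (n - m) * z ^ (n - m) *
      ((if m = 0 then 0 else S m) * z ^ m)) 0 n 1]
    have h4 : Ico (0 + 1) (n + 1) = Icc 1 n := by ext a; simp only [mem_Ico, mem_Icc]; omega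
    rw [h4]
    refine sum_congr rfl fun m hm => ?_
    rw [mem_Icc] at hm
    rw [if_neg (by omega)]
    have h5 : z ^ n = z ^ (n - m) * z ^ m := by rw [← pow_add, Nat.sub_add_cancel hm.2]
    rw [h5]; ring
  -- the contradiction
  intro h0
  have hpol0 : (pol c N).eval 0 = 1 := by
    rw [eval_pol]
    rcases Nat.eq_zero_or_pos N with h | h
    · exfalso
      have := hc 0 (by omega)
      rw [hc0] at this
      exact one_ne_zero this
    · rw [sum_eq_single 0]
      · simp [hc0]
      · intro n _ hn; simp [hn]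
      · intro hn; exact absurd (mem_range.2 h) hn
  have hP : pol c N ≠ 0 := by intro h; rw [h] at hpol0; simp at hpol0
  have hroot : (pol c N).eval u = 0 := by rw [eval_pol]; exact h0
  have hu0 : u ≠ 0 := by rintro rfl; rw [hpol0] at hroot; exact one_ne_zero hroot
  set k := rootMultiplicity u (pol c N) with hk
  have hkpos : 0 < k := (rootMultiplicity_pos hP).2 hroot
  obtain ⟨R, hR⟩ : (X - C u) ^ k ∣ pol c N := pow_rootMultiplicity_dvd _ _
  have hRu : R.eval u ≠ 0 := by
    intro h
    obtain ⟨R', hR'⟩ := dvd_iff_isRoot.2 h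
    have h1 : (X - C u) ^ (k + 1) ∣ pol c N := ⟨R', by rw [hR, hR', pow_succ]; ring⟩
    have h2 := (le_rootMultiplicity_iff hP).2 h1
    omega
  obtain ⟨r, hr1, hr2⟩ := exists_between hu
  have hr0 : 0 < r := lt_of_le_of_lt (norm_nonneg _) hr1
  set B := ∑' m, ‖S m‖ * r ^ m with hB
  have hbound : ∀ z : ℂ, ‖z‖ ≤ r → ‖∑' m, S' m * z ^ m‖ ≤ B := by
    intro z hz
    have hz' := hsum z (lt_of_le_of_lt hz hr2)
    refine (norm_tsum_le_tsum_norm hz').trans ?_
    refine hz'.tsum_le_tsum (fun m => ?_) (hS r hr0.le hr2)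
    rw [norm_mul, norm_pow]
    exact mul_le_mul (hS'n m) (pow_le_pow_left₀ (norm_nonneg _) hz m) (by positivity)
      (norm_nonneg _)
  have hder : derivative (pol c N) = (X - C u) ^ (k - 1) * (C (k : ℂ) * R + (X - C u) *
      derivative R) := by
    rw [hR, derivative_mul, derivative_X_sub_C_pow]
    have : (X - C u) ^ k = (X - C u) ^ (k - 1) * (X - C u) := by
      rw [← pow_succ]; congr 1; omega
    rw [this]; ring
  have hne : ∀ z : ℂ, ‖z‖ < r → z ≠ u → z * ((k : ℂ) * R.eval z + (z - u) *
      (derivative R).eval z) = (z - u) * R.eval z * ∑' m, S' m * z ^ m := by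
    intro z hz hzu
    have h1 := hid z (hz.trans hr2)
    rw [hder] at h1
    conv_rhs at h1 => rw [hR]
    simp only [eval_mul, eval_pow, eval_sub, eval_X, eval_C, eval_add] at h1
    have h2 : (z - u) ^ k = (z - u) ^ (k - 1) * (z - u) := by
      rw [← pow_succ]; congr 1; omega
    rw [h2] at h1
    have h3 : (z - u) ^ (k - 1) ≠ 0 := pow_ne_zero _ (sub_ne_zero.2 hzu)
    refine mul_left_cancel₀ h3 ?_
    linear_combination h1
  have hlim1 : Tendsto (fun z : ℂ => z * ((k : ℂ) * R.eval z + (z - u) *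
      (derivative R).eval z)) (𝓝[≠] u) (𝓝 (u * ((k : ℂ) * R.eval u + (u - u) *
      (derivative R).eval u))) := by
    apply Tendsto.mono_left _ nhdsWithin_le_nhds
    apply Continuous.tendsto
    have h1 := R.continuous
    have h2 := (derivative R).continuous
    fun_prop
  have hlim2 : Tendsto (fun z : ℂ => (z - u) * R.eval z * ∑' m, S' m * z ^ m) (𝓝[≠] u)
      (𝓝 0) := by
    have h1 : Tendsto (fun z : ℂ => (z - u) * R.eval z) (𝓝[≠] u) (𝓝 0) := by
      have : Tendsto (fun z : ℂ => (z - u) * R.eval z) (𝓝 u) (𝓝 ((u - u) * R.eval u)) := by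
        apply Continuous.tendsto
        have h1 := R.continuous
        fun_prop
      rw [sub_self, zero_mul] at this
      exact this.mono_left nhdsWithin_le_nhds
    refine squeeze_zero_norm' (a := fun z => ‖(z - u) * R.eval z‖ * B) ?_ ?_
    · have h2 : ∀ᶠ z in 𝓝[≠] u, ‖z‖ < r := by
        apply eventually_nhdsWithin_of_eventually_nhds
        exact continuous_norm.continuousAt.eventually_lt continuousAt_const hr1
      filter_upwards [h2] with z hz
      rw [norm_mul]
      exact mul_le_mul_of_nonneg_left (hbound z hz.le) (norm_nonneg _)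
    · have := (h1.norm).mul_const B
      simpa using this
  have hev : (fun z : ℂ => z * ((k : ℂ) * R.eval z + (z - u) *
      (derivative R).eval z)) =ᶠ[𝓝[≠] u] (fun z : ℂ => (z - u) * R.eval z *
        ∑' m, S' m * z ^ m) := by
    have h2 : ∀ᶠ z in 𝓝[≠] u, ‖z‖ < r := by
      apply eventually_nhdsWithin_of_eventually_nhds
      exact continuous_norm.continuousAt.eventually_lt continuousAt_const hr1
    filter_upwards [h2, self_mem_nhdsWithin] with z hz hzu
    exact hne z hz hzu
  have hfin := tendsto_nhds_unique (hlim1.congr' hev) hlim2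
  rw [sub_self, zero_mul, add_zero] at hfin
  rcases mul_eq_zero.1 hfin with h | h
  · exact hu0 h
  · rcases mul_eq_zero.1 h with h | h
    · have : k = 0 := by exact_mod_cast h
      omega
    · exact hRu h

end Pool.Agent.H60.RH
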