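import Pool.Agent.H60.RH.CharSum
import Pool.Agent.H60.RH.NoZero
import Pool.Agent.H69.Ratios.Vanish

/-!
# The Riemann hypothesis for the quadratic `L`-functions over `F_q[x]` (odd degree)
-/

set_option autoImplicit false
set_option linter.unusedSectionVars false

open Polynomial Finset
open scoped Classical

namespace Pool.Agent.H60.RH

open Pool.Agent.H69.Ratios

variable {F : Type} [Field F] [Fintype F]

/-- **The Weil bound** for the point counts of `y² = D(x)`. -/
theorem psum_bound (hq : Odd (Fintype.card F)) (D : F[X]) (hodd : Odd D.natDegree) (m : ℕ)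
    (hm : 1 ≤ m) : |(psum D m : ℝ)| ≤ (6 * D.natDegree + 4) * √(Fintype.card F) ^ m := by
  obtain ⟨p, hp⟩ := CharP.exists F
  have hprime : Fact p.Prime := ⟨CharP.char_is_prime F p⟩
  have : NeZero m := ⟨by omega⟩
  let K := FiniteField.Extension F p m
  let : Fintype K := Fintype.ofFinite K
  have hfr : Module.finrank F K = m := FiniteField.finrank_extension F p m
  have hfd : FiniteDimensional F K := Module.Finite.of_finite
  have hcard : Fintype.card K = Fintype.card F ^ m := by
    rw [Module.card_eq_pow_finrank (K := F) (V := K), hfr]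
  have hKodd : Odd (Fintype.card K) := by rw [hcard]; exact hq.pow
  set d := D.natDegree with hd
  have h1 : psum D m = ∑ x : K, quadraticChar K ((D.map (algebraMap F K)).eval x) := by
    have h0 : psum D (Module.finrank F K) = psum D m := congrArg (psum D) hfr
    rw [← h0, psum_eq_points hq D]
    simp only [eval_map_algebraMap]
  have hsq : √(Fintype.card F : ℝ) ^ m = √(Fintype.card K : ℝ) := by
    rw [hcard]; push_cast
    rw [Real.sqrt_eq_rpow, Real.sqrt_eq_rpow, ← Real.rpow_natCast, ← Real.rpow_natCast,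
      ← Real.rpow_mul (Nat.cast_nonneg _), ← Real.rpow_mul (Nat.cast_nonneg _), mul_comm]
  rw [hsq, h1]
  have hs0 : 0 ≤ √(Fintype.card K : ℝ) := Real.sqrt_nonneg _
  by_cases hbig : 16 * (d + 1) ^ 2 ≤ Fintype.card K
  · have h := char_sum_bound (f := D.map (algebraMap F K)) (d := d)
      (natDegree_map _) hodd hKodd hbig
    refine h.trans ?_
    nlinarith
  · push Not at hbig
    have h2 : |((∑ x : K, quadraticChar K ((D.map (algebraMap F K)).eval x) : ℤ) : ℝ)| ≤
        Fintype.card K := by
      have h3 : |∑ x : K, quadraticChar K ((D.map (algebraMap F K)).eval x)| ≤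
          ∑ x : K, (1 : ℤ) := by
        refine (abs_sum_le_sum_abs _ _).trans (sum_le_sum fun x _ => ?_)
        by_cases h0 : (D.map (algebraMap F K)).eval x = 0
        · rw [h0]; simp
        · rcases quadraticChar_dichotomy h0 with h | h <;> rw [h] <;> norm_num
      rw [sum_const, card_univ, nsmul_eq_mul, mul_one] at h3
      exact_mod_cast h3
    have h4 : √(Fintype.card K : ℝ) ≤ 4 * (d + 1) := by
      rw [Real.sqrt_le_left (by positivity)]
      have : Fintype.card K ≤ (4 * (d + 1)) ^ 2 := by nlinarith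
      exact_mod_cast this
    have h5 : (Fintype.card K : ℝ) = √(Fintype.card K : ℝ) * √(Fintype.card K : ℝ) :=
      (Real.mul_self_sqrt (Nat.cast_nonneg _)).symm
    refine h2.trans ?_
    conv_lhs => rw [h5]
    refine mul_le_mul_of_nonneg_right (h4.trans ?_) hs0
    have : (0 : ℝ) ≤ d := Nat.cast_nonneg _
    linarith

/-- **Zero-free region**: the polynomial `∑ c_n u^n` has no zero with `|u| < q^(-1/2)`. -/
theorem zero_free (hq : Odd (Fintype.card F)) (D : F[X]) (hD : D.Monic)
    (hodd : Odd D.natDegree) (u : ℂ) (hu : ‖u‖ < (√(Fintype.card F))⁻¹) :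
    ∑ n ∈ range D.natDegree, (coef D n : ℂ) * u ^ n ≠ 0 := by
  have hqpos : 0 < √(Fintype.card F : ℝ) := Real.sqrt_pos.2 (by exact_mod_cast Fintype.card_pos)
  refine no_zero (fun n => (coef D n : ℂ)) (fun m => (psum D m : ℂ)) D.natDegree
    (fun n hn => by simp only [coef_eq_zero hq D hD hodd n hn, Int.cast_zero])
    (by simp only [coef_zero, Int.cast_one]) (fun n => ?_) (√(Fintype.card F))⁻¹ ?_ u hu
  · have h := recursion D n
    have h' := congrArg (Int.cast : ℤ → ℂ) h
    push_cast at h'
    exact h'
  · intro r hr0 hr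
    rw [← summable_nat_add_iff 1]
    have hlt : √(Fintype.card F : ℝ) * r < 1 := by
      have := mul_lt_mul_of_pos_left hr hqpos
      rwa [mul_inv_cancel₀ hqpos.ne'] at this
    have hs : Summable (fun m : ℕ => (6 * (D.natDegree : ℝ) + 4) *
        (√(Fintype.card F) * r) ^ (m + 1)) :=
      ((summable_nat_add_iff 1).2 (summable_geometric_of_lt_one (by positivity) hlt)).mul_left _
    refine Summable.of_nonneg_of_le (fun m => by positivity) (fun m => ?_) hs
    rw [mul_pow, ← mul_assoc]
    refine mul_le_mul_of_nonneg_right ?_ (by positivity)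
    have h := psum_bound hq D hodd (m + 1) (by omega)
    rw [Complex.norm_intCast]
    exact h

/-- **The Riemann hypothesis**: `L(s, χ_D) ≠ 0` for `Re s > 1/2`. -/
theorem L_ne_zero (hq : Odd (Fintype.card F)) (D : F[X]) (hD : D.Monic)
    (hodd : Odd D.natDegree) (s : ℂ) (hs : 1 / 2 < s.re) : L D s ≠ 0 := by
  have hq0 : (0 : ℝ) < Fintype.card F := by exact_mod_cast Fintype.card_pos
  have hq1 : (1 : ℝ) < Fintype.card F := by exact_mod_cast Fintype.one_lt_card
  have hqc : (Fintype.card F : ℂ) ≠ 0 := by exact_mod_cast Fintype.card_ne_zero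
  have h1 : L D s = ∑ n ∈ range D.natDegree, (coef D n : ℂ) * ((Fintype.card F : ℂ) ^ (-s)) ^ n := by
    unfold L
    rw [tsum_eq_sum (s := range D.natDegree)]
    · refine sum_congr rfl fun n _ => ?_
      congr 1
      rw [← Complex.cpow_nat_mul]
      congr 1; ring
    · intro n hn
      rw [coef_eq_zero hq D hD hodd n (by simpa using hn)]; simp
  rw [h1]
  refine zero_free hq D hD hodd _ ?_
  have h2 : (Fintype.card F : ℂ) = ((Fintype.card F : ℝ) : ℂ) := by push_cast; rfl
  rw [h2, Complex.norm_cpow_eq_rpow_re_of_pos hq0, Complex.neg_re, ← Real.sqrt_inv,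
    Real.sqrt_eq_rpow, Real.inv_rpow hq0.le, ← Real.rpow_neg hq0.le]
  exact Real.rpow_lt_rpow_of_exponent_lt hq1 (by linarith)

end Pool.Agent.H60.RH
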