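import Pool.Agent.H60.RH.Stepanov

/-!
# Square root cancellation in quadratic character sums
-/

set_option autoImplicit false
set_option linter.unusedSectionVars false

open Polynomial Finset
open scoped Classical

namespace Pool.Agent.H60.RH

variable {K : Type*} [Field K] [Fintype K]

lemma ringChar_ne_two (h : Odd (Fintype.card K)) : ringChar K ≠ 2 := by
  intro h2
  have := FiniteField.even_card_of_char_two h2
  rw [Nat.odd_iff] at h
  omega

/-- The bound for polynomials not vanishing at `0`. -/
lemma char_sum_aux {f : K[X]} {d : ℕ} (hd : f.natDegree = d) (hodd : Odd d) (hf0 : f.eval 0 ≠ 0)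
    (hq : Odd (Fintype.card K)) (hqd : 16 * (d + 1) ^ 2 ≤ Fintype.card K) :
    |((∑ x : K, quadraticChar K (f.eval x) : ℤ) : ℝ)| ≤
      (6 * d + 3) * √(Fintype.card K) := by
  obtain ⟨q, hqq⟩ : ∃ q, q = Fintype.card K := ⟨_, rfl⟩
  have hf : f ≠ 0 := by rintro rfl; simp at hf0
  have h2 := ringChar_ne_two hq
  have hhalf : Fintype.card K / 2 = (Fintype.card K - 1) / 2 := by
    rw [Nat.odd_iff] at hq; omega
  set S1 := univ.filter fun x : K => quadraticChar K (f.eval x) = 1 with hS1
  set S2 := univ.filter fun x : K => quadraticChar K (f.eval x) = -1 with hS2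
  set S0 := univ.filter fun x : K => f.eval x = 0 with hS0
  have hsum : (∑ x : K, quadraticChar K (f.eval x) : ℤ) = S1.card - S2.card := by
    have h : ∀ x : K, quadraticChar K (f.eval x) =
        (if quadraticChar K (f.eval x) = 1 then (1 : ℤ) else 0) -
        (if quadraticChar K (f.eval x) = -1 then (1 : ℤ) else 0) := by
      intro x
      by_cases h0 : f.eval x = 0
      · rw [h0]; simp
      · rcases quadraticChar_dichotomy h0 with h | h <;> rw [h] <;> norm_num
    rw [sum_congr rfl fun x _ => h x, sum_sub_distrib, ← Finset.sum_filter, ← Finset.sum_filter]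
    simp [hS1, hS2]
  have hcard : S1.card + S2.card + S0.card = q := by
    have h : ∀ x : K, (1 : ℕ) = (if quadraticChar K (f.eval x) = 1 then 1 else 0) +
        (if quadraticChar K (f.eval x) = -1 then 1 else 0) + (if f.eval x = 0 then 1 else 0) := by
      intro x
      by_cases h0 : f.eval x = 0
      · rw [h0]; simp
      · rcases quadraticChar_dichotomy h0 with h | h <;> rw [h] <;> simp [h0]
    have h3 : ∑ x : K, 1 = q := by simp [hqq]
    rw [sum_congr rfl fun x _ => h x, sum_add_distrib, sum_add_distrib, ← Finset.sum_filter,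
      ← Finset.sum_filter, ← Finset.sum_filter] at h3
    simpa [hS1, hS2, hS0] using h3
  have hc0 : S0.card ≤ d := by
    rw [← hd]
    refine le_trans (Finset.card_le_card (t := f.roots.toFinset) ?_)
      ((Multiset.toFinset_card_le _).trans (card_roots' f))
    intro x hx
    rw [hS0, mem_filter] at hx
    rw [Multiset.mem_toFinset, mem_roots hf]
    exact hx.2
  -- the parameter
  obtain ⟨n, hn⟩ : ∃ n, n = Nat.sqrt q / 2 := ⟨_, rfl⟩
  have hsq := Nat.sqrt_le' q
  have hsq2 := Nat.lt_succ_sqrt' q
  have hs8 : 8 ≤ Nat.sqrt q := by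
    rw [Nat.le_sqrt']
    rw [← hqq] at hqd
    have : 1 ≤ d := hodd.pos
    nlinarith
  have hn0 : 0 < n := by omega
  have hnq : 4 * n ^ 2 ≤ q := by
    have : 2 * n ≤ Nat.sqrt q := by omega
    nlinarith
  have hn4 : Nat.sqrt q + 1 ≤ 4 * n := by omega
  have hst : ∀ (a : K) (S : Finset K), a ≠ 0 →
      (∀ x ∈ S, (f.eval x) ^ (Fintype.card K / 2) = a) →
      S.card * (4 * n) ≤ (2 * n + 3 * d + 1) * q := by
    intro a S ha hS
    rw [hqq]
    refine stepanov hd hodd hf0 ha hq hqd hn0 (by rw [← hqq]; exact hnq) S ?_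
    rw [← hhalf]; exact hS
  have h1 := hst 1 S1 one_ne_zero (by
    intro x hx
    rw [hS1, mem_filter] at hx
    have := quadraticChar_eq_pow_of_char_ne_two' h2 (f.eval x)
    rw [← this, hx.2]; simp)
  have h2' := hst (-1) S2 (neg_ne_zero.2 one_ne_zero) (by
    intro x hx
    rw [hS2, mem_filter] at hx
    have := quadraticChar_eq_pow_of_char_ne_two' h2 (f.eval x)
    rw [← this, hx.2]; simp)
  -- real estimates
  have hqr : (q : ℝ) = √q * √q := (Real.mul_self_sqrt (Nat.cast_nonneg q)).symm
  have hs4 : √(q : ℝ) ≤ 4 * n := by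
    have h3 : √(q : ℝ) ≤ Nat.sqrt q + 1 := by
      rw [Real.sqrt_le_left (by positivity)]
      exact_mod_cast hsq2.le
    have h4 : ((Nat.sqrt q + 1 : ℕ) : ℝ) ≤ ((4 * n : ℕ) : ℝ) := by exact_mod_cast hn4
    push_cast at h4
    linarith
  have hspos : 0 ≤ √(q : ℝ) := Real.sqrt_nonneg _
  have hs1 : 1 ≤ √(q : ℝ) := by
    rw [Real.one_le_sqrt]
    have : 1 ≤ q := by rw [hqq]; exact Fintype.card_pos
    exact_mod_cast this
  have hnr : (0 : ℝ) < n := by exact_mod_cast hn0
  have h1r : (S1.card : ℝ) * (4 * n) ≤ (2 * n + 3 * d + 1) * q := by exact_mod_cast h1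
  have h2r : (S2.card : ℝ) * (4 * n) ≤ (2 * n + 3 * d + 1) * q := by exact_mod_cast h2'
  have hcr : (S1.card : ℝ) + S2.card + S0.card = q := by exact_mod_cast hcard
  have h0r : (S0.card : ℝ) ≤ d := by exact_mod_cast hc0
  have hdr : (0 : ℝ) ≤ d := Nat.cast_nonneg d
  have hdsq : (d : ℝ) ≤ √q := by
    apply Real.le_sqrt_of_sq_le
    have : d ^ 2 ≤ q := by rw [← hqq] at hqd; nlinarith
    exact_mod_cast this
  have key : ∀ s t : ℝ, s * (4 * n) ≤ (2 * n + 3 * d + 1) * q → s + t + S0.card = q →
      s - t ≤ (6 * d + 3) * √q := by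
    intro s t hs hst
    have h5 : (s - t) * (4 * n) ≤ (6 * d + 2) * q + d * (4 * n) := by
      have : (s - t) * (4 * n) = 2 * (s * (4 * n)) - (q - S0.card) * (4 * n) := by
        rw [← hst]; ring
      rw [this]
      nlinarith
    have h6 : (6 * (d : ℝ) + 2) * q ≤ (6 * d + 2) * √q * (4 * n) := by
      rw [mul_assoc]
      conv_lhs => rw [hqr]
      exact mul_le_mul_of_nonneg_left (mul_le_mul_of_nonneg_left hs4 hspos) (by positivity)
    have h7 : (s - t) * (4 * n) ≤ ((6 * d + 2) * √q + d) * (4 * n) := by linarith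
    have h8 := le_of_mul_le_mul_right h7 (by positivity)
    linarith
  rw [hsum, ← hqq, abs_le]
  push_cast
  constructor
  · have := key S2.card S1.card h2r (by linarith)
    linarith
  · exact key S1.card S2.card h1r hcr

/-- **Square root cancellation.** -/
theorem char_sum_bound {f : K[X]} {d : ℕ} (hd : f.natDegree = d) (hodd : Odd d)
    (hq : Odd (Fintype.card K)) (hqd : 16 * (d + 1) ^ 2 ≤ Fintype.card K) :
    |((∑ x : K, quadraticChar K (f.eval x) : ℤ) : ℝ)| ≤
      (6 * d + 3) * √(Fintype.card K) := by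
  have hf : f ≠ 0 := by
    rintro rfl
    rw [natDegree_zero] at hd
    subst hd
    exact absurd hodd (by decide)
  obtain ⟨x0, hx0⟩ : ∃ x0 : K, f.eval x0 ≠ 0 := by
    by_contra h
    push Not at h
    have h1 : (univ : Finset K).card ≤ d := by
      rw [← hd]
      refine le_trans (Finset.card_le_card (t := f.roots.toFinset) ?_)
        ((Multiset.toFinset_card_le _).trans (card_roots' f))
      intro x _
      rw [Multiset.mem_toFinset, mem_roots hf]
      exact h x
    rw [card_univ] at h1
    nlinarith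
  have h := char_sum_aux (f := f.comp (X + C x0)) (d := d) (by
    rw [natDegree_comp, natDegree_X_add_C, mul_one, hd]) hodd (by simpa using hx0) hq hqd
  have e : (∑ x : K, quadraticChar K ((f.comp (X + C x0)).eval x) : ℤ) =
      ∑ x : K, quadraticChar K (f.eval x) := by
    simp only [eval_comp, eval_add, eval_X, eval_C]
    exact Equiv.sum_comp (Equiv.addRight x0) fun x => quadraticChar K (f.eval x)
  rwa [e] at h

end Pool.Agent.H60.RH
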