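import Mathlib

/-!
# The Stepanov bound for quadratic character sums over finite fields

For a polynomial `f` of odd degree over a finite field `K` with `q` elements (`q` odd) the sum of
the quadratic character over the values of `f` is `O(√q)`.
-/

set_option autoImplicit false
set_option linter.unusedSectionVars false

open Polynomial Finset

namespace Pool.Agent.H60.RH

section Hasse

variable {K : Type*} [Field K]

/-- The Hasse derivatives of powers of `f`. -/
lemma hasse_pow (f : K[X]) (d : ℕ) (hd : f.natDegree ≤ d) (N : ℕ) :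
    ∀ k, ∃ V : K[X], V.natDegree ≤ k * (d - 1) ∧ f ^ k * hasseDeriv k (f ^ N) = f ^ N * V := by
  induction N with
  | zero =>
    intro k
    rcases Nat.eq_zero_or_pos k with rfl | hk
    · exact ⟨1, by simp, by simp⟩
    · exact ⟨0, by simp, by simp [hasseDeriv_apply_one k hk]⟩
  | succ N ih =>
    intro k
    choose V hV1 hV2 using ih
    have hW : ∀ j, ∃ W : K[X], W.natDegree ≤ j * (d - 1) ∧ f ^ j * hasseDeriv j f = f * W := by
      intro j
      rcases Nat.eq_zero_or_pos j with rfl | hj
      · exact ⟨1, by simp, by simp⟩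
      · refine ⟨f ^ (j - 1) * hasseDeriv j f, ?_, ?_⟩
        · by_cases h0 : f.natDegree < j
          · rw [hasseDeriv_eq_zero_of_lt_natDegree _ _ h0]; simp
          · push Not at h0
            refine natDegree_mul_le.trans ?_
            have h1 := natDegree_hasseDeriv_le f j
            have h2 : (f ^ (j - 1)).natDegree ≤ (j - 1) * d :=
              natDegree_pow_le.trans (Nat.mul_le_mul_left _ hd)
            have h3 : j ≤ d := h0.trans hd
            obtain ⟨e, rfl⟩ : ∃ e, j = e + 1 := ⟨j - 1, by omega⟩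
            obtain ⟨c, rfl⟩ : ∃ c, d = c + 1 := ⟨d - 1, by omega⟩
            simp only [Nat.add_sub_cancel] at h2 ⊢
            have h4 : (hasseDeriv (e + 1) f).natDegree ≤ c - e := by omega
            have h5 : e ≤ c := by omega
            calc (f ^ e).natDegree + (hasseDeriv (e + 1) f).natDegree
                ≤ e * (c + 1) + (c - e) := by omega
              _ ≤ (e + 1) * c := by
                have : e * (c + 1) + (c - e) = e * c + (e + (c - e)) := by ring
                rw [this, Nat.add_sub_cancel' h5]; exact le_of_eq (by ring)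
        · rw [← mul_assoc]; congr 1
          rw [← pow_succ']; congr 1; omega
    choose W hW1 hW2 using hW
    refine ⟨∑ p ∈ antidiagonal k, V p.1 * W p.2, ?_, ?_⟩
    · refine natDegree_sum_le_of_forall_le _ _ fun p hp => ?_
      rw [HasAntidiagonal.mem_antidiagonal] at hp
      refine natDegree_mul_le.trans ((add_le_add (hV1 _) (hW1 _)).trans ?_)
      rw [← add_mul, hp]
    · rw [pow_succ f N, hasseDeriv_mul, mul_sum, mul_sum]
      refine sum_congr rfl fun p hp => ?_
      rw [HasAntidiagonal.mem_antidiagonal] at hp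
      calc f ^ k * (hasseDeriv p.1 (f ^ N) * hasseDeriv p.2 f)
          = (f ^ p.1 * hasseDeriv p.1 (f ^ N)) * (f ^ p.2 * hasseDeriv p.2 f) := by
            rw [← hp, pow_add]; ring
        _ = _ := by rw [hV2, hW2]; ring

end Hasse

section Finite

variable {K : Type*} [Field K] [Fintype K]

lemma dvd_pow_card_sub (f : K[X]) :
    X ^ Fintype.card K ∣ f ^ Fintype.card K - C (f.eval 0) := by
  rw [← FiniteField.expand_card f]
  have h : expand K (Fintype.card K) f - C (f.eval 0) =
      expand K (Fintype.card K) (divX f) * X ^ Fintype.card K := by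
    conv_lhs => rw [← divX_mul_X_add f]
    simp [coeff_zero_eq_eval_zero]
  rw [h]
  exact dvd_mul_left _ _

/-- The Hasse derivatives of order `0 < l < q` of `X ^ (j q)` vanish. -/
lemma hasse_X_pow (j l : ℕ) (h0 : 0 < l) (hl : l < Fintype.card K) :
    hasseDeriv l (X ^ (j * Fintype.card K) : K[X]) = 0 := by
  rw [← monomial_one_right_eq_X_pow, hasseDeriv_monomial]
  have h1 : ((X + 1 : K[X]) ^ (j * Fintype.card K)).coeff l = 0 := by
    have h2 : (X + 1 : K[X]) ^ (j * Fintype.card K) =
        expand K (Fintype.card K) ((X + 1) ^ j) := by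
      rw [map_pow, FiniteField.expand_card, ← pow_mul, mul_comm]
    rw [h2, coeff_expand Fintype.card_pos, if_neg]
    exact Nat.not_dvd_of_pos_of_lt h0 hl
  rw [coeff_X_add_one_pow] at h1
  rw [h1]; simp

lemma hasse_mul_X_pow (p : K[X]) (j k : ℕ) (hk : k < Fintype.card K) :
    hasseDeriv k (p * X ^ (j * Fintype.card K)) =
      hasseDeriv k p * X ^ (j * Fintype.card K) := by
  rw [hasseDeriv_mul, sum_eq_single (k, 0)]
  · simp
  · rintro ⟨a, b⟩ hab hne
    rw [HasAntidiagonal.mem_antidiagonal] at hab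
    simp only at hab
    have hb : 0 < b := by
      rcases Nat.eq_zero_or_pos b with rfl | hb
      · exact absurd (by simp at hab; simp [hab]) hne
      · exact hb
    rw [hasse_X_pow j b hb (by omega)]; simp
  · intro h; exact absurd (by simp) h

/-- The key nonvanishing statement. -/
lemma nonvanish {f g : K[X]} {d : ℕ} (hd : f.natDegree = d) (hodd : Odd d) (hf0 : f.eval 0 ≠ 0)
    (hg : g ^ 2 * f = f ^ Fintype.card K) {m : ℕ} (hm : 2 * m + d ≤ Fintype.card K + 1)
    {k h : K[X]} (hk : k.natDegree < m) (hh : h.natDegree < m)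
    (hdvd : X ^ Fintype.card K ∣ k + h * g) : k = 0 ∧ h = 0 := by
  have h1 : X ^ Fintype.card K ∣ k ^ 2 * f - h ^ 2 * C (f.eval 0) := by
    have h2 : k ^ 2 * f - h ^ 2 * C (f.eval 0) = (k + h * g) * ((k - h * g) * f) +
        h ^ 2 * (f ^ Fintype.card K - C (f.eval 0)) := by
      linear_combination h ^ 2 * hg
    rw [h2]
    exact dvd_add (hdvd.mul_right _) ((dvd_pow_card_sub f).mul_left _)
  have hdpos : 0 < d := hodd.pos
  have h3 : k ^ 2 * f - h ^ 2 * C (f.eval 0) = 0 := by
    refine eq_zero_of_dvd_of_natDegree_lt h1 ?_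
    rw [natDegree_X_pow]
    refine lt_of_le_of_lt (natDegree_sub_le _ _) (max_lt ?_ ?_)
    · refine lt_of_le_of_lt natDegree_mul_le ?_
      have := natDegree_pow_le (p := k) (n := 2)
      omega
    · refine lt_of_le_of_lt natDegree_mul_le ?_
      have := natDegree_pow_le (p := h) (n := 2)
      rw [natDegree_C]
      omega
  have hf : f ≠ 0 := by rintro rfl; simp at hf0
  by_cases hk0 : k = 0
  · refine ⟨hk0, ?_⟩
    rw [hk0] at h3
    have h4 : h ^ 2 * C (f.eval 0) = 0 := by linear_combination -h3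
    have h5 := (mul_eq_zero.1 h4).resolve_right (by simpa using hf0)
    exact pow_eq_zero_iff (two_ne_zero) |>.1 h5
  · exfalso
    have h4 : k ^ 2 * f = h ^ 2 * C (f.eval 0) := by linear_combination h3
    have hne : h ≠ 0 := by
      rintro rfl
      rw [zero_pow two_ne_zero, zero_mul] at h4
      exact mul_ne_zero (pow_ne_zero _ hk0) hf h4
    have h5 := congrArg natDegree h4
    rw [natDegree_mul (pow_ne_zero _ hk0) hf, natDegree_mul (pow_ne_zero _ hne) (by simpa using hf0),
      natDegree_pow, natDegree_pow, natDegree_C, hd] at h5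
    obtain ⟨c, rfl⟩ := hodd
    omega

/-- The Taylor coefficients and divisibility. -/
lemma X_sub_C_pow_dvd {r : K[X]} {x : K} {l : ℕ}
    (h : ∀ k < l, (hasseDeriv k r).eval x = 0) : (X - C x) ^ l ∣ r := by
  rw [X_sub_C_pow_dvd_iff, X_pow_dvd_iff]
  intro k hk
  rw [← h k hk, ← taylor_coeff]
  rfl

/-- A polynomial vanishing to order `l` on `S`. -/
lemma card_mul_le {r : K[X]} (hr : r ≠ 0) (S : Finset K) (l : ℕ)
    (h : ∀ x ∈ S, (X - C x) ^ l ∣ r) : S.card * l ≤ r.natDegree := by
  have h1 : ∏ x ∈ S, (X - C x) ^ l ∣ r := by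
    refine Finset.prod_dvd_of_coprime ?_ h
    intro x _ y _ hxy
    exact (pairwise_coprime_X_sub_C Function.injective_id hxy).pow
  have h2 := natDegree_le_of_dvd h1 hr
  rw [natDegree_prod_of_monic _ _ fun x _ => (monic_X_sub_C x).pow l] at h2
  simpa [natDegree_pow] using h2

end Finite

section Aux

variable {K : Type*} [Field K] [Fintype K]

/-- The auxiliary polynomials. -/
noncomputable def sfun (f : K[X]) (a : K) (V : ℕ → K[X]) (J m k : ℕ)
    (v : Fin J → (degreeLT K m × degreeLT K m)) : K[X] :=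
  ∑ j : Fin J, X ^ (j : ℕ) * (f ^ k * hasseDeriv k ((v j).1 : K[X]) +
    C a * ∑ p ∈ antidiagonal k, f ^ p.1 * hasseDeriv p.1 ((v j).2 : K[X]) * V p.2)

lemma sfun_add (f : K[X]) (a : K) (V : ℕ → K[X]) (J m k : ℕ)
    (v w : Fin J → (degreeLT K m × degreeLT K m)) :
    sfun f a V J m k (v + w) = sfun f a V J m k v + sfun f a V J m k w := by
  simp only [sfun, Pi.add_apply, Prod.fst_add, Prod.snd_add, Submodule.coe_add, map_add]
  rw [← sum_add_distrib]
  refine sum_congr rfl fun j _ => ?_
  have : ∑ p ∈ antidiagonal k, f ^ p.1 * (hasseDeriv p.1 ((v j).2 : K[X]) +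
      hasseDeriv p.1 ((w j).2 : K[X])) * V p.2 =
      ∑ p ∈ antidiagonal k, f ^ p.1 * hasseDeriv p.1 ((v j).2 : K[X]) * V p.2 +
      ∑ p ∈ antidiagonal k, f ^ p.1 * hasseDeriv p.1 ((w j).2 : K[X]) * V p.2 := by
    rw [← sum_add_distrib]; exact sum_congr rfl fun p _ => by ring
  rw [this]; ring

lemma sfun_smul (f : K[X]) (a : K) (V : ℕ → K[X]) (J m k : ℕ) (c : K)
    (v : Fin J → (degreeLT K m × degreeLT K m)) :
    sfun f a V J m k (c • v) = c • sfun f a V J m k v := by
  simp only [sfun, Pi.smul_apply, Prod.smul_fst, Prod.smul_snd, Submodule.coe_smul, map_smul]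
  rw [smul_sum]
  refine sum_congr rfl fun j _ => ?_
  have : ∑ p ∈ antidiagonal k, f ^ p.1 * (c • hasseDeriv p.1 ((v j).2 : K[X])) * V p.2 =
      c • ∑ p ∈ antidiagonal k, f ^ p.1 * hasseDeriv p.1 ((v j).2 : K[X]) * V p.2 := by
    rw [smul_sum]; exact sum_congr rfl fun p _ => by simp only [smul_eq_C_mul]; ring
  rw [this]; simp only [smul_eq_C_mul]; ring

/-- The linear system. -/
noncomputable def sys (f : K[X]) (a : K) (V : ℕ → K[X]) (J m l M : ℕ) :
    (Fin J → (degreeLT K m × degreeLT K m)) →ₗ[K] (Fin l × Fin M → K) where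
  toFun v := fun p => (sfun f a V J m p.1 v).coeff p.2
  map_add' v w := by ext p; simp [sfun_add]
  map_smul' c v := by ext p; simp [sfun_smul]

lemma natDegree_sfun_lt (f : K[X]) (a : K) (V : ℕ → K[X]) (J m l d : ℕ) (hd : f.natDegree ≤ d)
    (hd1 : 1 ≤ d) (hV : ∀ k, (V k).natDegree ≤ k * (d - 1)) (hm : 0 < m)
    (v : Fin J → (degreeLT K m × degreeLT K m)) (k : ℕ) (hk : k < l) :
    (sfun f a V J m k v).natDegree < m + J + l * d := by
  have hv : ∀ j, ((v j).1 : K[X]).natDegree < m ∧ ((v j).2 : K[X]).natDegree < m := by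
    intro j
    have h1 := mem_degreeLT.1 (v j).1.2
    have h2 := mem_degreeLT.1 (v j).2.2
    constructor
    · by_cases h0 : ((v j).1 : K[X]) = 0
      · rw [h0]; simpa using hm
      · exact (natDegree_lt_iff_degree_lt h0).2 h1
    · by_cases h0 : ((v j).2 : K[X]) = 0
      · rw [h0]; simpa using hm
      · exact (natDegree_lt_iff_degree_lt h0).2 h2
  have hterm : ∀ (p : K[X]) (i : ℕ), p.natDegree < m →
      (f ^ i * hasseDeriv i p).natDegree ≤ m - 1 + i * (d - 1) := by
    intro p i hp
    by_cases h0 : p.natDegree < i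
    · rw [hasseDeriv_eq_zero_of_lt_natDegree _ _ h0]; simp
    · push Not at h0
      have h1 := natDegree_hasseDeriv_le p i
      have h2 : (f ^ i).natDegree ≤ i * d := natDegree_pow_le.trans (Nat.mul_le_mul_left _ hd)
      refine natDegree_mul_le.trans ?_
      obtain ⟨c, rfl⟩ := Nat.exists_eq_add_of_le' hd1
      simp only [Nat.add_sub_cancel]
      have : i * (c + 1) = i * c + i := by ring
      omega
  have hbound : (sfun f a V J m k v).natDegree ≤ (J - 1) + (m - 1 + k * (d - 1)) := by
    refine natDegree_sum_le_of_forall_le _ _ fun j _ => ?_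
    refine natDegree_mul_le.trans (add_le_add ?_ ?_)
    · rw [natDegree_X_pow]; have := j.2; omega
    · refine natDegree_add_le_of_degree_le (hterm _ _ (hv j).1) ?_
      refine natDegree_mul_le.trans ?_
      rw [natDegree_C, zero_add]
      refine natDegree_sum_le_of_forall_le _ _ fun p hp => ?_
      rw [HasAntidiagonal.mem_antidiagonal] at hp
      refine natDegree_mul_le.trans ((add_le_add (hterm _ _ (hv j).2) (hV _)).trans ?_)
      rw [← hp, add_mul, add_assoc]
  refine lt_of_le_of_lt hbound ?_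
  have h1 : k * (d - 1) ≤ l * d := Nat.mul_le_mul hk.le (Nat.sub_le _ _)
  omega

lemma eq_zero_of_coeff {p : K[X]} {M : ℕ} (h1 : p.natDegree < M) (h2 : ∀ i : Fin M, p.coeff i = 0) :
    p = 0 := by
  ext i
  rcases lt_or_ge i M with h | h
  · simpa using h2 ⟨i, h⟩
  · rw [coeff_eq_zero_of_natDegree_lt (lt_of_lt_of_le h1 h)]; simp

/-- **Stepanov's method.** -/
theorem stepanov {f : K[X]} {d : ℕ} (hd : f.natDegree = d) (hodd : Odd d) (hf0 : f.eval 0 ≠ 0)
    {a : K} (ha : a ≠ 0) (hq : Odd (Fintype.card K)) (hqd : 16 * (d + 1) ^ 2 ≤ Fintype.card K)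
    {n : ℕ} (hn : 0 < n) (hnq : 4 * n ^ 2 ≤ Fintype.card K) (S : Finset K)
    (hS : ∀ x ∈ S, (f.eval x) ^ ((Fintype.card K - 1) / 2) = a) :
    S.card * (4 * n) ≤ (2 * n + 3 * d + 1) * Fintype.card K := by
  obtain ⟨q, hqq⟩ : ∃ q, q = Fintype.card K := ⟨_, rfl⟩
  rw [← hqq] at hq hqd hnq hS ⊢
  obtain ⟨N, hN⟩ : ∃ N, q = 2 * N + 1 := hq
  have hNq : (q - 1) / 2 = N := by omega
  rw [hNq] at hS
  have hN0 : 0 < N := by
    have : 1 ≤ (d + 1) ^ 2 := Nat.one_le_pow _ _ (Nat.succ_pos d)
    omega
  obtain ⟨c, hc⟩ := hodd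
  have hdq : d < q := by nlinarith
  obtain ⟨m, hm⟩ : ∃ m, m = N - c := ⟨_, rfl⟩
  have hm2 : 2 * m + d = q := by omega
  have hm0 : 0 < m := by omega
  set J := n + d + 1 with hJ
  set l := 2 * n with hl
  set M := m + J + l * d with hM
  have hf : f ≠ 0 := by rintro rfl; simp at hf0
  have hlq : l ≤ q := by nlinarith
  choose V hV1 hV2 using hasse_pow f d hd.le N
  -- a nonzero solution of the system
  obtain ⟨v, hv, hv0⟩ : ∃ v, sys f a V J m l M v = 0 ∧ v ≠ 0 := by
    have hfd : FiniteDimensional K (degreeLT K m) := Module.Finite.equiv (degreeLTEquiv K m).symm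
    have hfr : Module.finrank K (degreeLT K m) = m := by
      rw [(degreeLTEquiv K m).finrank_eq]; simp
    have hker : LinearMap.ker (sys f a V J m l M) ≠ ⊥ := by
      apply LinearMap.ker_ne_bot_of_finrank_lt
      have g1 : Module.finrank K (Fin J → (degreeLT K m × degreeLT K m)) = J * (m + m) := by
        rw [Module.finrank_pi_fintype, Finset.sum_const, Module.finrank_prod, hfr]
        simp only [Fintype.card_fin, card_univ, smul_eq_mul]
      have g2 : Module.finrank K (Fin l × Fin M → K) = l * M := by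
        rw [Module.finrank_pi]; simp only [Fintype.card_prod, Fintype.card_fin]
      rw [g1, g2]
      have e1 : 8 * (n * (d + 1)) ≤ q := by nlinarith [sq_nonneg ((2 * n : ℤ) - 4 * (d + 1))]
      rw [hM, hJ, hl]
      nlinarith
    obtain ⟨v, hv, hv0⟩ := (Submodule.ne_bot_iff _).1 hker
    exact ⟨v, LinearMap.mem_ker.1 hv, hv0⟩
  have hs0 : ∀ k < l, sfun f a V J m k v = 0 := by
    intro k hk
    refine eq_zero_of_coeff (natDegree_sfun_lt f a V J m l d hd.le (by omega) hV1 hm0 v k hk) ?_
    intro i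
    exact congrFun hv (⟨k, hk⟩, i)
  have hvd : ∀ j, ((v j).1 : K[X]).natDegree < m ∧ ((v j).2 : K[X]).natDegree < m := by
    intro j
    have h1 := mem_degreeLT.1 (v j).1.2
    have h2 := mem_degreeLT.1 (v j).2.2
    constructor
    · by_cases h0 : ((v j).1 : K[X]) = 0
      · rw [h0]; simpa using hm0
      · exact (natDegree_lt_iff_degree_lt h0).2 h1
    · by_cases h0 : ((v j).2 : K[X]) = 0
      · rw [h0]; simpa using hm0
      · exact (natDegree_lt_iff_degree_lt h0).2 h2
  obtain ⟨r, hr⟩ : ∃ r : K[X], r = ∑ j : Fin J, (((v j).1 : K[X]) + ((v j).2 : K[X]) * f ^ N) *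
    X ^ ((j : ℕ) * q) := ⟨_, rfl⟩
  -- nonvanishing
  have hr0 : r ≠ 0 := by
    intro h0
    apply hv0
    have key : ∀ i : ℕ, ∀ hi : i < J, v ⟨i, hi⟩ = 0 := by
      intro i
      induction i using Nat.strong_induction_on with
      | _ i ih =>
        intro hi
        have h1 : X ^ ((i + 1) * q) ∣ (((v ⟨i, hi⟩).1 : K[X]) + ((v ⟨i, hi⟩).2 : K[X]) * f ^ N) *
            X ^ (i * q) := by
          have h2 : (((v ⟨i, hi⟩).1 : K[X]) + ((v ⟨i, hi⟩).2 : K[X]) * f ^ N) * X ^ (i * q) =
              - ∑ j ∈ univ.erase (⟨i, hi⟩ : Fin J), (((v j).1 : K[X]) + ((v j).2 : K[X]) * f ^ N) *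
                X ^ ((j : ℕ) * q) := by
            rw [eq_neg_iff_add_eq_zero, add_sum_erase univ
              (fun j : Fin J => (((v j).1 : K[X]) + ((v j).2 : K[X]) * f ^ N) * X ^ ((j : ℕ) * q))
              (mem_univ _), ← hr, h0]
          rw [h2]
          refine (dvd_neg.2 (dvd_sum fun j hj => ?_))
          rcases lt_or_ge (j : ℕ) i with h3 | h3
          · rw [ih j h3 j.2]; simp
          · have h4 : i ≠ j := by
              intro h
              exact (mem_erase.1 hj).1 (Fin.ext h.symm)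
            exact (pow_dvd_pow _ (Nat.mul_le_mul_right _ (by omega))).mul_left _
        have h5 : X ^ q ∣ ((v ⟨i, hi⟩).1 : K[X]) + ((v ⟨i, hi⟩).2 : K[X]) * f ^ N := by
          rw [add_mul, one_mul, pow_add, mul_comm (X ^ (i * q))] at h1
          exact (mul_dvd_mul_iff_right (pow_ne_zero _ X_ne_zero)).1 h1
        have h6 := nonvanish hd ⟨c, hc⟩ hf0 (g := f ^ N) (m := m) (by
          rw [← pow_mul, ← pow_succ, ← hqq, hN]; congr 1; ring) (by omega)
          (hvd ⟨i, hi⟩).1 (hvd ⟨i, hi⟩).2 (by rw [← hqq]; exact h5)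
        exact Prod.ext (Subtype.ext h6.1) (Subtype.ext h6.2)
    ext j : 1
    exact key j j.2
  -- vanishing on `S`
  have hvan : ∀ x ∈ S, (X - C x) ^ l ∣ r := by
    intro x hx
    refine X_sub_C_pow_dvd fun k hk => ?_
    have hxa := hS x hx
    have hfx : f.eval x ≠ 0 := by
      intro h
      rw [h, zero_pow hN0.ne'] at hxa
      exact ha hxa.symm
    have e1 : f ^ k * hasseDeriv k r = ∑ j : Fin J, (f ^ k * hasseDeriv k ((v j).1 : K[X]) +
        f ^ N * ∑ p ∈ antidiagonal k, f ^ p.1 * hasseDeriv p.1 ((v j).2 : K[X]) * V p.2) *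
          X ^ ((j : ℕ) * q) := by
      rw [hr, map_sum, mul_sum]
      refine sum_congr rfl fun j _ => ?_
      rw [hqq, hasse_mul_X_pow _ _ _ (by rw [← hqq]; omega), map_add, hasseDeriv_mul, ← mul_assoc, mul_add,
        mul_sum, mul_sum]
      congr 2
      refine sum_congr rfl fun p hp => ?_
      rw [HasAntidiagonal.mem_antidiagonal] at hp
      calc f ^ k * (hasseDeriv p.1 ((v j).2 : K[X]) * hasseDeriv p.2 (f ^ N))
          = f ^ p.1 * hasseDeriv p.1 ((v j).2 : K[X]) * (f ^ p.2 * hasseDeriv p.2 (f ^ N)) := by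
            rw [← hp, pow_add]; ring
        _ = _ := by rw [hV2]; ring
    have e2 : (f ^ k * hasseDeriv k r).eval x = (sfun f a V J m k v).eval x := by
      rw [e1, sfun, eval_finsetSum, eval_finsetSum]
      refine sum_congr rfl fun j _ => ?_
      have hxj : x ^ ((j : ℕ) * q) = x ^ (j : ℕ) := by
        rw [mul_comm, pow_mul, hqq, FiniteField.pow_card]
      simp only [eval_mul, eval_add, eval_pow, eval_X, eval_C, hxa, hxj]
      ring
    rw [hs0 k hk, eval_zero, eval_mul, eval_pow] at e2
    exact (mul_eq_zero.1 e2).resolve_left (pow_ne_zero _ hfx)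
  have hcount := card_mul_le hr0 S l hvan
  have hdeg : r.natDegree ≤ (m - 1 + N * d) + (J - 1) * q := by
    rw [hr]
    refine natDegree_sum_le_of_forall_le _ _ fun j _ => ?_
    refine natDegree_mul_le.trans (add_le_add ?_ ?_)
    · refine natDegree_add_le_of_degree_le ?_ ?_
      · have := (hvd j).1; omega
      · refine natDegree_mul_le.trans (add_le_add ?_ ?_)
        · have := (hvd j).2; omega
        · refine natDegree_pow_le.trans (le_of_eq (by rw [hd]))
    · rw [natDegree_X_pow]
      exact Nat.mul_le_mul_right _ (by have := j.2; omega)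
  have hJ1 : J - 1 = n + d := by omega
  rw [hJ1] at hdeg
  have h8 : S.card * l ≤ m + N * d + (n + d) * q := by omega
  have h9 : 2 * (N * d) ≤ q * d := by rw [hN]; nlinarith
  rw [hl] at h8
  nlinarith

end Aux

end Pool.Agent.H60.RH
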